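import Mathlib
import Pool.Agent.W815.T3

/-!
# MP_ebd556_mp, Q1 in full: the multivariate trace inequality with constant `c = 1`

For all positive semidefinite complex `d × d` matrices `A_1, ..., A_n`,
`Tr √(∑ A_j²) - ∑ Tr A_j ≥ ∑_{j < k} (‖A_j - A_k‖₁ - Tr (A_j + A_k))`,
that is `L ≥ c R` with `c = 1`, for every number `n` of matrices and every dimension `d`.

Idea of the proof. Let the `A_j` have eigenvalues `λ_a` with unit eigenvectors `x_a`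
(`a` running over all pairs of an index `j` and an eigenvalue of `A_j`), let
`Γ = (⟨x_a, x_b⟩) = 1 + K` be the Gram matrix and `G = √(Λ Γ Λ)`. Then `Tr √(∑ A_j²) = Tr G`.
With `E = G - Λ` and `Y` the solution of `Λ Y + Y Λ = G² - Λ²` one has
`Tr Λ - Tr G = ½ Tr (Λ⁻¹ E²)`, and `E ≥ -Λ` gives `⟨Y, E⟩ ≥ ½ ⟨E, E⟩` for the inner product
weighted by `Λ⁻¹`, hence `Tr Λ - Tr G ≤ 2 ⟨Y, Y⟩ = ∑_{a ≠ b} λ_a λ_b / (λ_a + λ_b) |K_ab|²`.
On the other hand `Tr (A + B) - ‖A - B‖₁ ≥ 2 ∑ λ μ / (λ + μ) |⟨x, y⟩|²` over the eigenpairs of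
`A` and `B`.
-/

open scoped MatrixOrder ComplexOrder
open Matrix

namespace Pool.Agent.Results.MP_ebd556_mp.PairwiseTraceBound

/-- For all positive semidefinite `A_1, ..., A_n` in `M_d(ℂ)`:
`∑_{j < k} (‖A_j - A_k‖₁ - Tr (A_j + A_k)) ≤ Tr √(∑ A_j²) - ∑ Tr A_j`,
where `‖X‖₁ = Tr √(X* X)`. -/
theorem result (n d : ℕ) (A : Fin n → Matrix (Fin d) (Fin d) ℂ) (hA : ∀ j, (A j).PosSemidef) :
    ∑ p : Fin n × Fin n with p.1 < p.2,
        ((CFC.sqrt ((A p.1 - A p.2)ᴴ * (A p.1 - A p.2))).trace.re - (A p.1 + A p.2).trace.re)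
      ≤ (CFC.sqrt (∑ j, A j ^ 2)).trace.re - ∑ j, (A j).trace.re :=
  Pool.Agent.W815.PTB.main n d A hA

end Pool.Agent.Results.MP_ebd556_mp.PairwiseTraceBound
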